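import Pool.Agent.Lib.MP_c5838f_co.SP.Iface

set_option autoImplicit false

open Finset

namespace Pool.Agent.Lib.MP_c5838f_co.SP.H20

lemma pow_le_choose {m j : ℕ} (h : j ≤ m) : m ^ j ≤ j ^ j * m.choose j := by
  have h1 : m ^ j * j.factorial ≤ j ^ j * m.descFactorial j := by
    rw [← Nat.descFactorial_self j, Nat.descFactorial_eq_prod_range, Nat.descFactorial_eq_prod_range]
    have e1 : m ^ j = ∏ _i ∈ range j, m := by rw [Finset.prod_const, Finset.card_range]
    have e2 : j ^ j = ∏ _i ∈ range j, j := by rw [Finset.prod_const, Finset.card_range]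
    rw [e1, e2, ← Finset.prod_mul_distrib, ← Finset.prod_mul_distrib]
    refine Finset.prod_le_prod' fun i hi => ?_
    have hi' := Finset.mem_range.mp hi
    obtain ⟨a, ha⟩ := Nat.exists_eq_add_of_lt hi'
    obtain ⟨b, hb⟩ := Nat.exists_eq_add_of_le h
    have e3 : j - i = a + 1 := by omega
    have e4 : m - i = a + 1 + b := by omega
    rw [e3, e4, hb, ha]
    nlinarith [Nat.zero_le (i * b)]
  rw [Nat.descFactorial_eq_factorial_mul_choose] at h1
  have h2 : m ^ j * j.factorial ≤ (j ^ j * m.choose j) * j.factorial := by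
    calc m ^ j * j.factorial ≤ j ^ j * (j.factorial * m.choose j) := h1
      _ = _ := by ring
  exact Nat.le_of_mul_le_mul_right h2 j.factorial_pos

section Words
variable {p κ K : ℕ} [Fact p.Prime]

/-- The word of a vector. -/
def word (x : Fin K → (Fin (κ + 1) → ZMod p)) : Fin K × ZMod p → ZMod p :=
  fun q => ev (x q.1) q.2

lemma ev_sub {k : ℕ} (a b : Fin k → ZMod p) (y : ZMod p) : ev (a - b) y = ev a y - ev b y := by
  unfold ev
  rw [← Finset.sum_sub_distrib]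
  refine Finset.sum_congr rfl fun j _ => ?_
  rw [Pi.sub_apply, sub_mul]

lemma ev_smul {k : ℕ} (c : ZMod p) (a : Fin k → ZMod p) (y : ZMod p) :
    ev (c • a) y = c * ev a y := by
  unfold ev
  rw [Finset.mul_sum]
  refine Finset.sum_congr rfl fun j _ => ?_
  rw [Pi.smul_apply, smul_eq_mul, mul_assoc]

lemma card_nonzero (a : Fin (κ + 1) → ZMod p) :
    #{y : ZMod p | ev a y ≠ 0} = p - nz a := by
  have h := Finset.card_filter_add_card_filter_not (s := (univ : Finset (ZMod p)))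
    (fun y => ev a y = 0)
  rw [Finset.card_univ, ZMod.card] at h
  unfold nz
  simp only [ne_eq]
  omega

lemma dist_word (x y : Fin K → (Fin (κ + 1) → ZMod p)) :
    hammingDist (word x) (word y) = ∑ i, (p - nz (x i - y i)) := by
  unfold hammingDist
  have h : ({q : Fin K × ZMod p | word x q ≠ word y q} : Finset _)
      = (univ : Finset (Fin K)).biUnion (fun i =>
        ({t : ZMod p | ev (x i - y i) t ≠ 0} : Finset (ZMod p)).image (fun t => (i, t))) := by
    ext ⟨i, t⟩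
    rw [Finset.mem_filter, Finset.mem_biUnion]
    constructor
    · rintro ⟨_, h⟩
      refine ⟨i, Finset.mem_univ _, Finset.mem_image.mpr ⟨t, ?_, rfl⟩⟩
      rw [Finset.mem_filter]
      refine ⟨Finset.mem_univ _, ?_⟩
      rw [ev_sub]
      exact sub_ne_zero.mpr h
    · rintro ⟨j, _, hj⟩
      obtain ⟨s, hs, hst⟩ := Finset.mem_image.mp hj
      obtain ⟨rfl, rfl⟩ := Prod.mk.inj hst
      rw [Finset.mem_filter, ev_sub] at hs
      exact ⟨Finset.mem_univ _, sub_ne_zero.mp hs.2⟩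
  rw [h, Finset.card_biUnion]
  · refine Finset.sum_congr rfl fun i _ => ?_
    rw [Finset.card_image_of_injective, card_nonzero]
    intro a b hab
    exact (Prod.mk.inj hab).2
  · intro i _ j _ hij
    rw [Function.onFun, Finset.disjoint_left]
    intro q hq hq'
    obtain ⟨s, _, hs⟩ := Finset.mem_image.mp hq
    obtain ⟨t, _, ht⟩ := Finset.mem_image.mp hq'
    rw [← hs] at ht
    exact hij (Prod.mk.inj ht).1.symm

lemma le_dist (hZ : RszStatement) (D : ℕ) (x y : Fin K → (Fin (κ + 1) → ZMod p))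
    (h : x - y ∉ bset (Fin (κ + 1) → ZMod p) K D) :
    D * (p - κ) ≤ hammingDist (word x) (word y) := by
  have h1 : D ≤ nzb (x - y) := by
    by_contra hlt
    exact h (Finset.mem_filter.mpr ⟨Finset.mem_univ _, not_le.mp hlt⟩)
  rw [dist_word]
  calc D * (p - κ) ≤ nzb (x - y) * (p - κ) := Nat.mul_le_mul_right _ h1
    _ = ∑ i ∈ ({i | (x - y) i ≠ 0} : Finset (Fin K)), (p - κ) := by
        rw [Finset.sum_const, smul_eq_mul]
        rfl
    _ ≤ ∑ i ∈ ({i | (x - y) i ≠ 0} : Finset (Fin K)), (p - nz (x i - y i)) := by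
        refine Finset.sum_le_sum fun i hi => ?_
        have := hZ p κ (x i - y i) (Finset.mem_filter.mp hi).2
        omega
    _ ≤ _ := Finset.sum_le_sum_of_subset (Finset.subset_univ _)

lemma dist_eq (D : ℕ) (x y : Fin K → (Fin (κ + 1) → ZMod p))
    (h : x - y ∈ tset K D (wset p κ)) :
    hammingDist (word x) (word y) = D * (p - κ) := by
  rw [tset, Finset.mem_filter] at h
  obtain ⟨_, h1, h2⟩ := h
  rw [dist_word]
  have h3 : ∑ i, (p - nz (x i - y i))
      = ∑ i ∈ ({i | (x - y) i ≠ 0} : Finset (Fin K)), (p - nz (x i - y i)) := by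
    symm
    refine Finset.sum_subset (Finset.subset_univ _) fun i _ hi => ?_
    rw [Finset.mem_filter, not_and, not_not] at hi
    have hi0 : x i - y i = 0 := hi (Finset.mem_univ _)
    rw [hi0]
    have : nz (0 : Fin (κ + 1) → ZMod p) = p := by
      unfold nz
      rw [Finset.filter_true_of_mem, Finset.card_univ, ZMod.card]
      intro y _
      simp [ev]
    rw [this, Nat.sub_self]
  rw [h3, Finset.sum_congr rfl (g := fun _ => p - κ), Finset.sum_const, smul_eq_mul]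
  · rw [← h1]
    rfl
  · intro i hi
    have hi' := h2 i (Finset.mem_filter.mp hi).2
    rw [wset, Finset.mem_filter] at hi'
    have : nz (x i - y i) = κ := hi'.2.2
    rw [this]

lemma zero_not_mem_wset : (0 : Fin (κ + 1) → ZMod p) ∉ wset p κ := by
  rw [wset, Finset.mem_filter]
  rintro ⟨_, h, _⟩
  exact h rfl

lemma smul_mem_wset (c : ZMod p) (hc : c ≠ 0) (a : Fin (κ + 1) → ZMod p) (ha : a ∈ wset p κ) :
    c • a ∈ wset p κ := by
  rw [wset, Finset.mem_filter] at ha ⊢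
  refine ⟨Finset.mem_univ _, smul_ne_zero hc ha.2.1, ?_⟩
  have h : nz (c • a) = nz a := by
    unfold nz
    congr 1
    ext y
    rw [Finset.mem_filter, Finset.mem_filter, ev_smul, mul_eq_zero]
    simp [hc]
  exact h.trans ha.2.2
end Words

/-- Sets with many pairs contain a vertex of large degree. -/
lemma exists_deg {V : Type} [AddCommGroup V] [DecidableEq V] (T U : Finset V) (g : ℕ)
    (hU : U.Nonempty) (h : (#U : ℝ) * g ≤ (#{q ∈ U ×ˢ U | q.1 - q.2 ∈ T} : ℝ)) :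
    ∃ x ∈ U, g ≤ #{y ∈ U | x - y ∈ T} := by
  by_contra hcon
  push Not at hcon
  have h1 : #{q ∈ U ×ˢ U | q.1 - q.2 ∈ T} = ∑ x ∈ U, #{y ∈ U | x - y ∈ T} := by
    rw [Finset.card_filter, Finset.sum_product]
    refine Finset.sum_congr rfl fun x _ => ?_
    rw [Finset.card_filter]
  have h2 : ∑ x ∈ U, #{y ∈ U | x - y ∈ T} < ∑ _x ∈ U, g :=
    Finset.sum_lt_sum_of_nonempty hU hcon
  rw [Finset.sum_const, smul_eq_mul, ← h1] at h2
  have h3 : (#{q ∈ U ×ˢ U | q.1 - q.2 ∈ T} : ℝ) < (#U : ℝ) * g := by exact_mod_cast h2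
  linarith

/-- The arithmetic of the parameters. -/
lemma arith (p D w b : ℕ) (hD : 1 ≤ D) (hp : 2 * (4 * D) ^ (4 * D) ≤ p)
    (hw : (p - 1) * p.choose (4 * D) ≤ w) (hwN : w ≤ p ^ (4 * D + 1))
    (hb : b ≤ ((p - 1) / 2).choose (D - 1) * (p ^ (4 * D + 1)) ^ (D - 1)) :
    2 * 32 ^ D < ((p - 1) / 2).choose D ∧ 0 < w ∧
    b * ((p - 1) / 2).choose D ^ 2 ≤ 8 * 32 ^ (2 * D) * (32 ^ D * w ^ D) ∧
    32 ^ D * w ^ D ≤ (p ^ (4 * D + 1)) ^ ((p - 1) / 2) ∧
    2 * b ≤ (p ^ (4 * D + 1)) ^ ((p - 1) / 2) := by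
  obtain ⟨K, hK⟩ : ∃ K, K = (p - 1) / 2 := ⟨_, rfl⟩
  obtain ⟨N, hN⟩ : ∃ N, N = p ^ (4 * D + 1) := ⟨_, rfl⟩
  rw [← hK, ← hN] at hb ⊢
  rw [← hN] at hwN
  have hpow : 4 * D * 64 ≤ (4 * D) ^ (4 * D) := by
    have h4 : (4 * D) ^ 4 ≤ (4 * D) ^ (4 * D) := Nat.pow_le_pow_right (by omega) (by omega)
    have h5 : 4 * D * 64 ≤ (4 * D) ^ 4 := by
      have : 64 ≤ (4 * D) ^ 3 := by
        calc 64 = 4 ^ 3 := by norm_num
          _ ≤ (4 * D) ^ 3 := Nat.pow_le_pow_left (by omega) 3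
      calc 4 * D * 64 ≤ 4 * D * (4 * D) ^ 3 := Nat.mul_le_mul_left _ this
        _ = (4 * D) ^ 4 := by ring
    omega
  have hp512 : 512 * D ≤ p := by omega
  have hK64 : 64 * D < K := by omega
  have hKp : K ≤ p := by omega
  have hDK : D ≤ K := by omega
  have hkp : 4 * D ≤ p := by omega
  have hp0 : 0 < p := by omega
  -- (1)
  have c1 : 2 * 32 ^ D < K.choose D := by
    have h1 := pow_le_choose hDK
    have h2 : (64 * D) ^ D < K ^ D := Nat.pow_lt_pow_left hK64 (by omega)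
    have h3 : (64 * D) ^ D = D ^ D * (2 ^ D * 32 ^ D) := by
      rw [← mul_pow, ← mul_pow]
      congr 1
      ring
    have h4 : D ^ D * (2 ^ D * 32 ^ D) < D ^ D * K.choose D := by
      rw [← h3]
      exact lt_of_lt_of_le h2 h1
    have h5 := Nat.lt_of_mul_lt_mul_left h4
    have h6 : 2 ≤ 2 ^ D := by
      calc 2 = 2 ^ 1 := by norm_num
        _ ≤ 2 ^ D := Nat.pow_le_pow_right (by norm_num) hD
    calc 2 * 32 ^ D ≤ 2 ^ D * 32 ^ D := Nat.mul_le_mul_right _ h6
      _ < _ := h5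
  -- N ≤ 2 κ^κ w
  have c2 : N ≤ 2 * (4 * D) ^ (4 * D) * w := by
    have h1 := pow_le_choose hkp
    calc N = p * p ^ (4 * D) := by rw [hN, pow_succ]; ring
      _ ≤ (2 * (p - 1)) * p ^ (4 * D) := Nat.mul_le_mul_right _ (by omega)
      _ ≤ (2 * (p - 1)) * ((4 * D) ^ (4 * D) * p.choose (4 * D)) := Nat.mul_le_mul_left _ h1
      _ = 2 * (4 * D) ^ (4 * D) * ((p - 1) * p.choose (4 * D)) := by ring
      _ ≤ _ := Nat.mul_le_mul_left _ hw
  have hN0 : 0 < N := by rw [hN]; positivity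
  have hw0 : 0 < w := by
    rcases Nat.eq_zero_or_pos w with h | h
    · rw [h, mul_zero] at c2
      omega
    · exact h
  have hpN : p ≤ N := by
    rw [hN]
    exact Nat.le_self_pow (by omega) p
  have h32N : 32 ≤ N := by omega
  refine ⟨c1, hw0, ?_, ?_, ?_⟩
  · -- b C² ≤ ...
    have h1 : N ^ (D - 1) * p ^ (3 * D) ≤ w ^ D := by
      have hpos : 0 < (2 * (4 * D) ^ (4 * D)) ^ D := by positivity
      refine Nat.le_of_mul_le_mul_left ?_ hpos
      calc (2 * (4 * D) ^ (4 * D)) ^ D * (N ^ (D - 1) * p ^ (3 * D))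
          ≤ p ^ D * (N ^ (D - 1) * p ^ (3 * D)) := Nat.mul_le_mul_right _ (Nat.pow_le_pow_left hp D)
        _ = N ^ (D - 1) * p ^ (4 * D) := by
            rw [show 4 * D = D + 3 * D by ring, pow_add]; ring
        _ ≤ N ^ (D - 1) * N := by
            refine Nat.mul_le_mul_left _ ?_
            rw [hN]
            exact Nat.pow_le_pow_right hp0 (Nat.le_succ _)
        _ = N ^ D := by rw [← pow_succ]; congr 1; omega
        _ ≤ (2 * (4 * D) ^ (4 * D) * w) ^ D := Nat.pow_le_pow_left c2 D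
        _ = _ := by rw [mul_pow]
    have h2 : K.choose (D - 1) * K.choose D ^ 2 ≤ p ^ (3 * D) := by
      have e1 : K.choose (D - 1) ≤ p ^ D := by
        calc K.choose (D - 1) ≤ K ^ (D - 1) := Nat.choose_le_pow K (D - 1)
          _ ≤ p ^ (D - 1) := Nat.pow_le_pow_left hKp _
          _ ≤ p ^ D := Nat.pow_le_pow_right hp0 (by omega)
      have e2 : K.choose D ≤ p ^ D := (Nat.choose_le_pow K D).trans (Nat.pow_le_pow_left hKp _)
      calc K.choose (D - 1) * K.choose D ^ 2 ≤ p ^ D * (p ^ D) ^ 2 :=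
            Nat.mul_le_mul e1 (Nat.pow_le_pow_left e2 2)
        _ = p ^ (3 * D) := by rw [← pow_mul, ← pow_add]; congr 1; ring
    calc b * K.choose D ^ 2 ≤ (K.choose (D - 1) * N ^ (D - 1)) * K.choose D ^ 2 :=
          Nat.mul_le_mul_right _ hb
      _ = N ^ (D - 1) * (K.choose (D - 1) * K.choose D ^ 2) := by ring
      _ ≤ N ^ (D - 1) * p ^ (3 * D) := Nat.mul_le_mul_left _ h2
      _ ≤ w ^ D := h1
      _ = 1 * (1 * w ^ D) := by ring
      _ ≤ 8 * 32 ^ (2 * D) * (32 ^ D * w ^ D) := by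
          refine Nat.mul_le_mul ?_ (Nat.mul_le_mul_right _ (Nat.one_le_pow _ _ (by norm_num)))
          have : 1 ≤ 32 ^ (2 * D) := Nat.one_le_pow _ _ (by norm_num)
          omega
  · calc 32 ^ D * w ^ D = (32 * w) ^ D := (mul_pow _ _ _).symm
      _ ≤ (N * N) ^ D := Nat.pow_le_pow_left (Nat.mul_le_mul h32N hwN) D
      _ = N ^ (2 * D) := by rw [pow_mul, sq]
      _ ≤ N ^ K := Nat.pow_le_pow_right hN0 (by omega)
  · have h1 : b ≤ N ^ (2 * (D - 1)) := by
      calc b ≤ K.choose (D - 1) * N ^ (D - 1) := hb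
        _ ≤ N ^ (D - 1) * N ^ (D - 1) := by
            refine Nat.mul_le_mul_right _ ?_
            exact (Nat.choose_le_pow K (D - 1)).trans (Nat.pow_le_pow_left (hKp.trans hpN) _)
        _ = _ := by rw [← pow_add]; congr 1; ring
    calc 2 * b ≤ N * N ^ (2 * (D - 1)) := Nat.mul_le_mul (by omega) h1
      _ = N ^ (2 * (D - 1) + 1) := by rw [pow_succ]; ring
      _ ≤ N ^ K := Nat.pow_le_pow_right hN0 (by omega)

/-- Module MAIN. -/
theorem main (hE : EmbStatement) (hF : FourStatement) (hS : SampStatement) (hP : ParStatement)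
    (hZ : RszStatement) (hW : RswStatement) (hC : CntStatement) : MainStatement := by
  intro p D _ hD hp n hn
  have hp2 : 2 ≤ p := (Fact.out : p.Prime).two_le
  obtain ⟨K, hK⟩ : ∃ K, K = (p - 1) / 2 := ⟨_, rfl⟩
  obtain ⟨w, hw⟩ : ∃ w, w = #(wset p (4 * D)) := ⟨_, rfl⟩
  obtain ⟨b, hb⟩ : ∃ b, b = #(bset (Fin (4 * D + 1) → ZMod p) K D) := ⟨_, rfl⟩
  have hpow : 4 * D * 64 ≤ (4 * D) ^ (4 * D) := by
    have h4 : (4 * D) ^ 4 ≤ (4 * D) ^ (4 * D) := Nat.pow_le_pow_right (by omega) (by omega)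
    have h5 : 4 * D * 64 ≤ (4 * D) ^ 4 := by
      have : 64 ≤ (4 * D) ^ 3 := by
        calc 64 = 4 ^ 3 := by norm_num
          _ ≤ (4 * D) ^ 3 := Nat.pow_le_pow_left (by omega) 3
      calc 4 * D * 64 ≤ 4 * D * (4 * D) ^ 3 := Nat.mul_le_mul_left _ this
        _ = (4 * D) ^ 4 := by ring
    omega
  have hp512 : 512 * D ≤ p := by omega
  have hDK : D ≤ K := by omega
  have hcA : Fintype.card (Fin (4 * D + 1) → ZMod p) = p ^ (4 * D + 1) := by
    rw [Fintype.card_fun, Fintype.card_fin, ZMod.card]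
  have hcV : Fintype.card (Fin K → (Fin (4 * D + 1) → ZMod p)) = (p ^ (4 * D + 1)) ^ K := by
    rw [Fintype.card_fun, Fintype.card_fin, hcA]
  obtain ⟨hT, hB⟩ := hC (Fin (4 * D + 1) → ZMod p) (wset p (4 * D)) K D zero_not_mem_wset
  have hB' := hB hD hDK
  rw [hcA, ← hb] at hB'
  have hwN : w ≤ p ^ (4 * D + 1) := by
    rw [hw, ← hcA]
    exact Finset.card_le_univ _
  obtain ⟨a1, a2, a3, a4, a5⟩ := arith p D w b hD hp (hw ▸ hW p (4 * D) (by omega)) hwN (hK ▸ hB')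
  rw [← hK] at a1 a3 a4 a5
  have hch0 : (0 : ℝ) < (K.choose D : ℝ) := by
    have : 0 < K.choose D := Nat.choose_pos hDK
    exact_mod_cast this
  obtain ⟨θ, hθ⟩ : ∃ θ : ℝ, θ = 2 * 32 ^ D / (K.choose D : ℝ) := ⟨_, rfl⟩
  have hθ0 : 0 < θ := by rw [hθ]; positivity
  have hθ1 : θ < 1 := by
    rw [hθ, div_lt_one hch0]
    exact_mod_cast a1
  have hθch : θ * (K.choose D : ℝ) = 2 * 32 ^ D := by
    rw [hθ, div_mul_cancel₀ _ hch0.ne']
  obtain ⟨g, hg⟩ : ∃ g, g = 32 ^ D * w ^ D := ⟨_, rfl⟩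
  rw [← hg] at a3 a4
  have hg0 : 0 < g := by rw [hg]; positivity
  have hb0 : 0 < b := by
    rw [hb, Finset.card_pos]
    refine ⟨0, ?_⟩
    rw [bset, Finset.mem_filter]
    refine ⟨Finset.mem_univ _, ?_⟩
    have : nzb (0 : Fin K → (Fin (4 * D + 1) → ZMod p)) = 0 := by
      simp [nzb]
    omega
  have hbg : (b : ℝ) ≤ 2 * θ ^ 2 * g := by
    have h1 : (b : ℝ) * (K.choose D : ℝ) ^ 2 ≤ 8 * 32 ^ (2 * D) * (g : ℝ) := by exact_mod_cast a3
    have h2 : 2 * θ ^ 2 * (g : ℝ) * (K.choose D : ℝ) ^ 2 = 8 * 32 ^ (2 * D) * (g : ℝ) := by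
      calc 2 * θ ^ 2 * (g : ℝ) * (K.choose D : ℝ) ^ 2 = 2 * (θ * (K.choose D : ℝ)) ^ 2 * g := by ring
        _ = _ := by rw [hθch]; ring
    have h3 : (0 : ℝ) < (K.choose D : ℝ) ^ 2 := by positivity
    exact le_of_mul_le_mul_right (h1.trans h2.ge) h3
  obtain ⟨M, s, m1, m2, m3⟩ := hP θ ((p ^ (4 * D + 1)) ^ K) b g hθ0 hθ1 hb0 hg0 hbg a4 a5
  -- the hypothesis of the sampling lemma
  have hH : ∀ U : Finset (Fin K → (Fin (4 * D + 1) → ZMod p)), U.Nonempty →
      θ * (Fintype.card (Fin K → (Fin (4 * D + 1) → ZMod p)) : ℝ) ≤ (#U : ℝ) →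
      ∃ x ∈ U, g ≤ #{y ∈ U | x - y ∈ tset K D (wset p (4 * D))} := by
    intro U hU hUc
    refine exists_deg _ U g hU ?_
    have h1 := hF p (Fin (4 * D + 1) → ZMod p) (wset p (4 * D)) K D zero_not_mem_wset
      smul_mem_wset (by omega) U
    refine le_trans ?_ h1
    rw [hcV] at hUc
    rw [hcA, ← hw]
    push_cast at hUc ⊢
    have hv0 : (0 : ℝ) < ((p : ℝ) ^ (4 * D + 1)) ^ K := by
      have : (0 : ℝ) < p := by exact_mod_cast (by omega : 0 < p)
      positivity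
    have h2 : (2 : ℝ) * 32 ^ D * (w : ℝ) ^ D * (#U : ℝ)
        ≤ ((K.choose D : ℝ) * (w : ℝ) ^ D) * (#U : ℝ) ^ 2 / ((p : ℝ) ^ (4 * D + 1)) ^ K := by
      rw [le_div_iff₀ hv0]
      have h3 : (0 : ℝ) ≤ (K.choose D : ℝ) * (w : ℝ) ^ D * (#U : ℝ) := by positivity
      have h4 := mul_le_mul_of_nonneg_left hUc h3
      calc (2 : ℝ) * 32 ^ D * (w : ℝ) ^ D * (#U : ℝ) * ((p : ℝ) ^ (4 * D + 1)) ^ K
          = (K.choose D : ℝ) * (w : ℝ) ^ D * (#U : ℝ) * (θ * ((p : ℝ) ^ (4 * D + 1)) ^ K) := by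
            rw [← hθch]; ring
        _ ≤ _ := h4
        _ = _ := by ring
    rw [hg]
    push_cast
    linarith
  obtain ⟨C, hC1, hC2⟩ := hS (Fin K → (Fin (4 * D + 1) → ZMod p)) (tset K D (wset p (4 * D)))
    (bset (Fin (4 * D + 1) → ZMod p) K D) θ g M s
    (by
      rw [bset, Finset.mem_filter]
      refine ⟨Finset.mem_univ _, ?_⟩
      have : nzb (0 : Fin K → (Fin (4 * D + 1) → ZMod p)) = 0 := by
        simp [nzb]
      omega)
    (by
      intro x hx
      rw [bset, Finset.mem_filter] at hx ⊢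
      refine ⟨Finset.mem_univ _, ?_⟩
      have : nzb (-x) = nzb x := by simp [nzb]
      rw [this]
      exact hx.2)
    (by
      intro x hx
      rw [tset, Finset.mem_filter] at hx ⊢
      have : nzb (-x) = nzb x := by simp [nzb]
      refine ⟨Finset.mem_univ _, by rw [this]; exact hx.2.1, ?_⟩
      intro i hi
      have h1 : x i ≠ 0 := by
        intro h0
        exact hi (by rw [Pi.neg_apply, h0, neg_zero])
      have h2 := smul_mem_wset (-1) (neg_ne_zero.mpr one_ne_zero) (x i) (hx.2.2 i h1)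
      rw [Pi.neg_apply]
      simpa using h2)
    hθ0 hθ1 hg0 hH
    (by rw [hcV, ← hb]; exact m1)
    (by rw [hcV]; exact m2)
  -- the packing
  have hd0 : 0 < D * (p - 4 * D) := Nat.mul_pos (by omega) (by omega)
  obtain ⟨Pk, hPk, hcol⟩ := hE (Fin K × ZMod p) (ZMod p) (C.image word) (D * (p - 4 * D)) n hd0
    (by
      intro u hu v hv huv
      obtain ⟨x, hx, rfl⟩ := Finset.mem_image.mp hu
      obtain ⟨y, hy, rfl⟩ := Finset.mem_image.mp hv
      exact le_dist hZ D x y (hC1 x hx y hy (fun h => huv (by rw [h]))))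
    (by
      rw [Fintype.card_prod, Fintype.card_fin, ZMod.card]
      refine le_trans ?_ hn
      calc K * p * p ≤ p * p * p :=
            Nat.mul_le_mul_right _ (Nat.mul_le_mul_right _ (by omega))
        _ = p ^ 3 := by ring)
  refine ⟨Pk, hPk, fun m hm => ?_⟩
  obtain ⟨c, hc⟩ := hcol m hm
  have hM := hC2 m (fun x => c ⟨word x.1, Finset.mem_image_of_mem _ x.2⟩)
    (fun x y hxy => hc _ _ (dist_eq D x.1 y.1 hxy))
  have hfin := m3 m hM
  -- the final estimate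
  have h1 : (K.choose D : ℝ) ≤ 96 * 32 ^ D * (m : ℝ) := by
    have h2 := mul_le_mul_of_nonneg_right hfin hch0.le
    calc (K.choose D : ℝ) = 1 * (K.choose D : ℝ) := (one_mul _).symm
      _ ≤ 48 * θ * (m : ℝ) * (K.choose D : ℝ) := h2
      _ = 48 * (θ * (K.choose D : ℝ)) * m := by ring
      _ = _ := by rw [hθch]; ring
  have h3 : (K : ℝ) ^ D ≤ (D : ℝ) ^ D * (K.choose D : ℝ) := by exact_mod_cast pow_le_choose hDK
  have h4 : (p : ℝ) / 3 ≤ K := by
    have : p ≤ 3 * K := by omega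
    have : (p : ℝ) ≤ 3 * K := by exact_mod_cast this
    linarith
  have hDr : (0 : ℝ) < D := by exact_mod_cast hD
  have h5 : ((p : ℝ) / 3) ^ D ≤ (K : ℝ) ^ D := pow_le_pow_left₀ (by positivity) h4 D
  have h6 : ((p : ℝ) / (96 * (D : ℝ))) ^ D = ((p : ℝ) / 3) ^ D / (32 * (D : ℝ)) ^ D := by
    rw [← div_pow]
    congr 1
    field_simp
    norm_num
  rw [h6, div_le_iff₀ (by positivity)]
  calc ((p : ℝ) / 3) ^ D ≤ (D : ℝ) ^ D * (K.choose D : ℝ) := h5.trans h3
    _ ≤ (D : ℝ) ^ D * (96 * 32 ^ D * (m : ℝ)) := mul_le_mul_of_nonneg_left h1 (by positivity)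
    _ = _ := by rw [mul_pow]; ring

end Pool.Agent.Lib.MP_c5838f_co.SP.H20
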