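import Pool.Agent.Lib.MP_c5838f_co.SP.Iface

set_option autoImplicit false

open Finset

namespace Pool.Agent.Lib.MP_c5838f_co.SP.H20

section General
variable {G : Type} [AddCommGroup G] [Fintype G] [DecidableEq G]

/-- Fourier transform of a finite set. -/
noncomputable def ft (S : Finset G) (ψ : AddChar G ℂ) : ℂ := ∑ x ∈ S, ψ x

omit [DecidableEq G] in
lemma char_neg (ψ : AddChar G ℂ) (x : G) : ψ (-x) = (starRingEnd ℂ) (ψ x) := by
  rw [AddChar.map_neg_eq_inv]
  exact Complex.inv_eq_conj (ψ.norm_apply x)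

omit [DecidableEq G] in
lemma ft_conj (S : Finset G) (ψ : AddChar G ℂ) :
    (starRingEnd ℂ) (ft S ψ) = ∑ x ∈ S, ψ (-x) := by
  unfold ft
  rw [map_sum]
  exact Finset.sum_congr rfl fun x _ => (char_neg ψ x).symm

lemma count_eq (T U : Finset G) :
    ∑ ψ : AddChar G ℂ, ft T ψ * (ft U ψ * (starRingEnd ℂ) (ft U ψ))
      = (Fintype.card G : ℂ) * (#{q ∈ U ×ˢ U | q.1 - q.2 ∈ T} : ℂ) := by
  have h1 : ∀ ψ : AddChar G ℂ, ft T ψ * (ft U ψ * (starRingEnd ℂ) (ft U ψ))
      = ∑ q ∈ U ×ˢ U, ∑ t ∈ T, ψ (t + q.2 - q.1) := by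
    intro ψ
    rw [ft_conj]
    unfold ft
    rw [Finset.sum_product, Finset.sum_comm]
    rw [Finset.sum_mul_sum, Finset.mul_sum]
    refine Finset.sum_congr rfl fun y _ => ?_
    rw [Finset.mul_sum]
    refine Finset.sum_congr rfl fun x _ => ?_
    rw [Finset.sum_mul]
    refine Finset.sum_congr rfl fun t _ => ?_
    rw [sub_eq_add_neg, AddChar.map_add_eq_mul, AddChar.map_add_eq_mul]
    ring
  rw [Finset.sum_congr rfl fun ψ _ => h1 ψ, Finset.sum_comm]
  have h2 : ∀ q ∈ U ×ˢ U, ∑ ψ : AddChar G ℂ, ∑ t ∈ T, ψ (t + q.2 - q.1)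
      = if q.1 - q.2 ∈ T then (Fintype.card G : ℂ) else 0 := by
    intro q _
    rw [Finset.sum_comm]
    have h3 : ∀ t ∈ T, ∑ ψ : AddChar G ℂ, ψ (t + q.2 - q.1)
        = if t = q.1 - q.2 then (Fintype.card G : ℂ) else 0 := by
      intro t _
      rw [AddChar.sum_apply_eq_ite]
      congr 1
      rw [eq_iff_iff]
      constructor
      · intro h
        rw [eq_sub_iff_add_eq]
        exact sub_eq_zero.mp h
      · intro h
        rw [h]
        abel
    rw [Finset.sum_congr rfl h3, Finset.sum_ite_eq' T (q.1 - q.2)]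
  rw [Finset.sum_congr rfl h2, Finset.sum_ite, Finset.sum_const_zero, add_zero,
    Finset.sum_const, nsmul_eq_mul, mul_comm]

lemma parseval (U : Finset G) :
    ∑ ψ : AddChar G ℂ, Complex.normSq (ft U ψ) = (Fintype.card G : ℝ) * (#U : ℝ) := by
  have h := count_eq ({0} : Finset G) U
  have h1 : ∀ ψ : AddChar G ℂ, ft ({0} : Finset G) ψ = 1 := by
    intro ψ
    simp [ft]
  have h2 : #{q ∈ U ×ˢ U | q.1 - q.2 ∈ ({0} : Finset G)} = #U := by
    rw [show ({q ∈ U ×ˢ U | q.1 - q.2 ∈ ({0} : Finset G)}) = U.image (fun x => (x, x)) from ?_]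
    · rw [Finset.card_image_of_injective]
      intro a b hab
      exact (Prod.mk.inj hab).1
    · ext ⟨x, y⟩
      simp only [Finset.mem_filter, Finset.mem_product, Finset.mem_singleton, Finset.mem_image,
        Prod.mk.injEq, sub_eq_zero]
      constructor
      · rintro ⟨⟨hx, hy⟩, rfl⟩
        exact ⟨x, hx, rfl, rfl⟩
      · rintro ⟨z, hz, rfl, rfl⟩
        exact ⟨⟨hz, hz⟩, rfl⟩
  rw [h2] at h
  have h3 : ((∑ ψ : AddChar G ℂ, Complex.normSq (ft U ψ) : ℝ) : ℂ)
      = (((Fintype.card G : ℝ) * (#U : ℝ) : ℝ) : ℂ) := by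
    push_cast
    rw [← h]
    refine Finset.sum_congr rfl fun ψ _ => ?_
    rw [h1, one_mul, Complex.mul_conj]
  exact_mod_cast h3

/-- The Hoffman inequality. -/
lemma hoff (T U : Finset G) (L : AddChar G ℂ → ℝ) (hL : ∀ ψ, ft T ψ = (L ψ : ℂ)) (μ : ℝ)
    (hμ : ∀ ψ, -μ ≤ L ψ) (hμ0 : 0 ≤ μ) :
    (#T : ℝ) * (#U : ℝ) ^ 2 / (Fintype.card G : ℝ) - μ * (#U : ℝ)
      ≤ (#{q ∈ U ×ˢ U | q.1 - q.2 ∈ T} : ℝ) := by
  have h := count_eq T U
  have h1 : ∑ ψ : AddChar G ℂ, L ψ * Complex.normSq (ft U ψ)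
      = (Fintype.card G : ℝ) * (#{q ∈ U ×ˢ U | q.1 - q.2 ∈ T} : ℝ) := by
    have h3 : ((∑ ψ : AddChar G ℂ, L ψ * Complex.normSq (ft U ψ) : ℝ) : ℂ)
        = (((Fintype.card G : ℝ) * (#{q ∈ U ×ˢ U | q.1 - q.2 ∈ T} : ℝ) : ℝ) : ℂ) := by
      push_cast
      rw [← h]
      refine Finset.sum_congr rfl fun ψ _ => ?_
      rw [hL, Complex.mul_conj]
    exact_mod_cast h3
  have hL0 : L 0 = (#T : ℝ) := by
    have := hL 0
    have h4 : ft T (0 : AddChar G ℂ) = (#T : ℂ) := by simp [ft]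
    rw [h4] at this
    exact_mod_cast this.symm
  have hU0 : Complex.normSq (ft U (0 : AddChar G ℂ)) = (#U : ℝ) ^ 2 := by
    have h4 : ft U (0 : AddChar G ℂ) = ((#U : ℝ) : ℂ) := by simp [ft]
    rw [h4, Complex.normSq_ofReal]
    ring
  have h5 : (#T : ℝ) * (#U : ℝ) ^ 2 - μ * ((Fintype.card G : ℝ) * (#U : ℝ))
      ≤ ∑ ψ : AddChar G ℂ, L ψ * Complex.normSq (ft U ψ) := by
    rw [← parseval U, Finset.mul_sum, ← Finset.add_sum_erase univ _ (Finset.mem_univ (0 : AddChar G ℂ)),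
      ← Finset.add_sum_erase univ (fun ψ => L ψ * Complex.normSq (ft U ψ)) (Finset.mem_univ (0 : AddChar G ℂ)), hL0, hU0]
    have h6 : -∑ ψ ∈ univ.erase (0 : AddChar G ℂ), μ * Complex.normSq (ft U ψ)
        ≤ ∑ ψ ∈ univ.erase (0 : AddChar G ℂ), L ψ * Complex.normSq (ft U ψ) := by
      rw [← Finset.sum_neg_distrib]
      refine Finset.sum_le_sum fun ψ _ => ?_
      have := mul_le_mul_of_nonneg_right (hμ ψ) (Complex.normSq_nonneg (ft U ψ))
      linarith
    have h7 : 0 ≤ μ * (#U : ℝ) ^ 2 := by positivity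
    linarith
  have hG : (0 : ℝ) < (Fintype.card G : ℝ) := by
    have : 0 < Fintype.card G := Fintype.card_pos
    exact_mod_cast this
  rw [h1] at h5
  rw [sub_le_iff_le_add, div_le_iff₀ hG]
  nlinarith
end General

section Lam
variable {p : ℕ} [Fact p.Prime] {A : Type} [AddCommGroup A] [Module (ZMod p) A] [Fintype A]
  [DecidableEq A]

omit [DecidableEq A] in
lemma lam_im (W : Finset A) (hW : ∀ c : ZMod p, c ≠ 0 → ∀ a ∈ W, c • a ∈ W)
    (ψ : AddChar A ℂ) : ft W ψ = ((ft W ψ).re : ℂ) := by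
  have hneg : ∀ a ∈ W, -a ∈ W := by
    intro a ha
    have := hW (-1) (neg_ne_zero.mpr one_ne_zero) a ha
    simpa using this
  have h : (starRingEnd ℂ) (ft W ψ) = ft W ψ := by
    rw [ft_conj]
    unfold ft
    exact Finset.sum_nbij' (fun a => -a) (fun a => -a) (fun a ha => hneg a ha)
      (fun a ha => hneg a ha) (fun a _ => neg_neg a) (fun a _ => neg_neg a) (fun a _ => rfl)
  exact (Complex.conj_eq_iff_re.mp h).symm

omit [DecidableEq A] in
lemma lam_le (W : Finset A) (ψ : AddChar A ℂ) : (ft W ψ).re ≤ (#W : ℝ) := by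
  refine (Complex.re_le_norm _).trans ?_
  unfold ft
  refine (norm_sum_le _ _).trans ?_
  rw [Finset.sum_congr rfl fun x _ => ψ.norm_apply x]
  simp

omit [DecidableEq A] in
lemma le_lam (W : Finset A) (hW : ∀ c : ZMod p, c ≠ 0 → ∀ a ∈ W, c • a ∈ W)
    (ψ : AddChar A ℂ) : -(#W : ℝ) ≤ ((p : ℝ) - 1) * (ft W ψ).re := by
  have hp : 1 < p := (Fact.out : p.Prime).one_lt
  have hcard : (#(univ.erase (0 : ZMod p)) : ℝ) = (p : ℝ) - 1 := by
    rw [Finset.card_erase_of_mem (Finset.mem_univ _), Finset.card_univ, ZMod.card,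
      Nat.cast_sub hp.le, Nat.cast_one]
  have h1 : ∀ c ∈ univ.erase (0 : ZMod p), ∑ a ∈ W, ψ (c • a) = ft W ψ := by
    intro c hc
    have hc0 : c ≠ 0 := Finset.ne_of_mem_erase hc
    unfold ft
    refine Finset.sum_nbij' (fun a => c • a) (fun a => c⁻¹ • a) (fun a ha => hW c hc0 a ha)
      (fun a ha => hW c⁻¹ (inv_ne_zero hc0) a ha) (fun a _ => ?_) (fun a _ => ?_) (fun a _ => rfl)
    · simp only [smul_smul, inv_mul_cancel₀ hc0, one_smul]
    · simp only [smul_smul, mul_inv_cancel₀ hc0, one_smul]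
  have h2 : ∑ c ∈ univ.erase (0 : ZMod p), ∑ a ∈ W, ψ (c • a)
      = (((p : ℝ) - 1 : ℝ) : ℂ) * ft W ψ := by
    rw [Finset.sum_congr rfl h1, Finset.sum_const, nsmul_eq_mul, ← hcard]
    push_cast
    rfl
  rw [Finset.sum_comm] at h2
  have h3 : ∀ a ∈ W, -(1 : ℝ) ≤ (∑ c ∈ univ.erase (0 : ZMod p), ψ (c • a)).re := by
    intro a _
    have h4 : ∑ c ∈ univ.erase (0 : ZMod p), ψ (c • a) = ∑ c : ZMod p, ψ (c • a) - 1 := by
      rw [← Finset.add_sum_erase univ _ (Finset.mem_univ (0 : ZMod p))]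
      simp
    let χ : AddChar (ZMod p) ℂ :=
      ψ.compAddMonoidHom (LinearMap.toSpanSingleton (ZMod p) A a).toAddMonoidHom
    have h5 : ∑ c : ZMod p, ψ (c • a) = ∑ c : ZMod p, χ c := by
      refine Finset.sum_congr rfl fun c _ => ?_
      simp [χ]
    rw [h4, h5]
    by_cases hχ : χ = 0
    · rw [AddChar.sum_eq_ite χ, if_pos hχ]
      simp
    · rw [AddChar.sum_eq_ite χ, if_neg hχ]
      simp
  have h6 : (∑ a ∈ W, ∑ c ∈ univ.erase (0 : ZMod p), ψ (c • a)).re
      = ((p : ℝ) - 1) * (ft W ψ).re := by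
    rw [h2, Complex.re_ofReal_mul]
  rw [← h6, Complex.re_sum]
  calc -(#W : ℝ) = ∑ a ∈ W, (-(1 : ℝ)) := by simp
    _ ≤ _ := Finset.sum_le_sum h3
end Lam

section Tens
variable {A : Type} [AddCommGroup A] [Fintype A] [DecidableEq A] {K : ℕ}

/-- The restriction of a character to block `i`. -/
noncomputable def blk (ψ : AddChar (Fin K → A) ℂ) (i : Fin K) : AddChar A ℂ :=
  ψ.compAddMonoidHom (AddMonoidHom.single (fun _ => A) i)

omit [Fintype A] [DecidableEq A] in
lemma psi_eq_prod (ψ : AddChar (Fin K → A) ℂ) (x : Fin K → A) :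
    ψ x = ∏ i, blk ψ i (x i) := by
  have h : ∀ s : Finset (Fin K), ψ (∑ i ∈ s, Pi.single i (x i)) = ∏ i ∈ s, blk ψ i (x i) := by
    intro s
    induction s using Finset.induction_on with
    | empty => simp
    | insert i s hi ih =>
      rw [Finset.sum_insert hi, Finset.prod_insert hi, AddChar.map_add_eq_mul, ih]
      rfl
  have h2 := h univ
  rw [Finset.univ_sum_single] at h2
  exact h2

lemma ft_tset (W : Finset A) (hW : (0 : A) ∉ W) (D : ℕ) (ψ : AddChar (Fin K → A) ℂ) :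
    ft (tset K D W) ψ
      = ∑ S ∈ powersetCard D (univ : Finset (Fin K)), ∏ i ∈ S, ft W (blk ψ i) := by
  unfold ft
  have hmaps : ∀ x ∈ tset K D W, (fun x : Fin K → A => ({i | x i ≠ 0} : Finset (Fin K))) x
      ∈ powersetCard D (univ : Finset (Fin K)) := by
    intro x hx
    rw [tset, Finset.mem_filter] at hx
    rw [Finset.mem_powersetCard]
    exact ⟨Finset.subset_univ _, hx.2.1⟩
  rw [← Finset.sum_fiberwise_of_maps_to hmaps]
  refine Finset.sum_congr rfl fun S hS => ?_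
  rw [Finset.mem_powersetCard] at hS
  have hfib : ({x ∈ tset K D W | ({i | x i ≠ 0} : Finset (Fin K)) = S})
      = Fintype.piFinset (fun i => if i ∈ S then W else {0}) := by
    ext x
    rw [Finset.mem_filter, tset, Finset.mem_filter, Fintype.mem_piFinset]
    constructor
    · rintro ⟨⟨_, _, hx⟩, hS'⟩ i
      by_cases hi : i ∈ S
      · rw [if_pos hi]
        rw [← hS', Finset.mem_filter] at hi
        exact hx i hi.2
      · rw [if_neg hi, Finset.mem_singleton]
        rw [← hS', Finset.mem_filter] at hi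
        by_contra h
        exact hi ⟨Finset.mem_univ _, h⟩
    · intro hx
      have hsupp : ({i | x i ≠ 0} : Finset (Fin K)) = S := by
        ext i
        rw [Finset.mem_filter]
        constructor
        · rintro ⟨_, hi⟩
          by_contra hiS
          have := hx i
          rw [if_neg hiS, Finset.mem_singleton] at this
          exact hi this
        · intro hiS
          have := hx i
          rw [if_pos hiS] at this
          refine ⟨Finset.mem_univ _, fun h0 => hW ?_⟩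
          rw [← h0]
          exact this
      refine ⟨⟨Finset.mem_univ _, ?_, ?_⟩, hsupp⟩
      · rw [nzb, hsupp]
        exact hS.2
      · intro i hi
        have hiS : i ∈ S := by
          rw [← hsupp, Finset.mem_filter]
          exact ⟨Finset.mem_univ _, hi⟩
        have := hx i
        rwa [if_pos hiS] at this
  rw [hfib]
  rw [Finset.sum_congr rfl fun x _ => psi_eq_prod ψ x]
  rw [← Finset.prod_univ_sum]
  rw [← Finset.prod_subset (Finset.subset_univ S)]
  · refine Finset.prod_congr rfl fun i hi => ?_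
    rw [if_pos hi]
  · intro i _ hi
    rw [if_neg hi]
    simp
end Tens

/-- Module FOUR. -/
theorem four (hE : EsymStatement) : FourStatement := by
  intro p _ A _ _ _ _ W K D hW0 hW hK U
  have hp : 1 < p := (Fact.out : p.Prime).one_lt
  have hp1 : (0 : ℝ) < (p : ℝ) - 1 := by
    have : (1 : ℝ) < p := by exact_mod_cast hp
    linarith
  have hKr : (K : ℝ) * (1 / ((p : ℝ) - 1)) ≤ 1 / 2 := by
    have h1 : (2 * K : ℝ) ≤ (p : ℝ) - 1 := by
      have : ((2 * K : ℕ) : ℝ) ≤ ((p - 1 : ℕ) : ℝ) := by exact_mod_cast hK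
      rw [Nat.cast_sub hp.le] at this
      push_cast at this
      exact this
    rw [mul_one_div, div_le_div_iff₀ hp1 (by norm_num)]
    linarith
  let ξ : AddChar (Fin K → A) ℂ → Fin K → ℝ := fun ψ i => (ft W (blk ψ i)).re / (#W : ℝ)
  have hlam : ∀ ψ i, (ft W (blk ψ i)) = (((#W : ℝ) * ξ ψ i : ℝ) : ℂ) := by
    intro ψ i
    rw [lam_im (p := p) W hW (blk ψ i)]
    by_cases hw : (#W : ℝ) = 0
    · have hWe : W = ∅ := by
        have : #W = 0 := by exact_mod_cast hw
        exact Finset.card_eq_zero.mp this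
      simp [hWe, ft]
    · congr 1
      show (ft W (blk ψ i)).re = (#W : ℝ) * ((ft W (blk ψ i)).re / (#W : ℝ))
      rw [mul_div_cancel₀ _ hw]
  have hcardL : ∀ ψ, ft (tset K D W) ψ = (((#W : ℝ) ^ D *
      ∑ S ∈ powersetCard D (univ : Finset (Fin K)), ∏ i ∈ S, ξ ψ i : ℝ) : ℂ) := by
    intro ψ
    rw [ft_tset W hW0 D ψ]
    push_cast
    rw [Finset.mul_sum]
    refine Finset.sum_congr rfl fun S hS => ?_
    rw [Finset.mem_powersetCard] at hS
    rw [Finset.prod_congr rfl fun i _ => hlam ψ i]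
    push_cast
    rw [Finset.prod_mul_distrib, Finset.prod_const, hS.2]
  have hbound : ∀ ψ, -((32 : ℝ) ^ D * (#W : ℝ) ^ D) ≤ (#W : ℝ) ^ D *
      ∑ S ∈ powersetCard D (univ : Finset (Fin K)), ∏ i ∈ S, ξ ψ i := by
    intro ψ
    have h := hE K D (ξ ψ) (1 / ((p : ℝ) - 1)) (one_div_nonneg.mpr hp1.le) ?_ ?_ hKr
    · have h2 : (0 : ℝ) ≤ (#W : ℝ) ^ D := pow_nonneg (Nat.cast_nonneg _) _
      have h3 := mul_le_mul_of_nonneg_left h h2
      linarith
    · intro i
      show -(1 / ((p : ℝ) - 1)) ≤ (ft W (blk ψ i)).re / (#W : ℝ)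
      by_cases hw : (#W : ℝ) = 0
      · rw [hw, div_zero]
        have : 0 ≤ 1 / ((p : ℝ) - 1) := one_div_nonneg.mpr hp1.le
        linarith
      · have hw' : (0 : ℝ) < (#W : ℝ) := lt_of_le_of_ne (Nat.cast_nonneg _) (Ne.symm hw)
        have h5 := le_lam (p := p) W hW (blk ψ i)
        rw [le_div_iff₀ hw', neg_mul, one_div_mul_eq_div, neg_le, le_div_iff₀ hp1]
        linarith
    · intro i
      show (ft W (blk ψ i)).re / (#W : ℝ) ≤ 1
      exact div_le_one_of_le₀ (lam_le W _) (Nat.cast_nonneg _)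
  have hmain := hoff (tset K D W) U (fun ψ => (#W : ℝ) ^ D *
      ∑ S ∈ powersetCard D (univ : Finset (Fin K)), ∏ i ∈ S, ξ ψ i) hcardL
      ((32 : ℝ) ^ D * (#W : ℝ) ^ D) hbound
      (mul_nonneg (pow_nonneg (by norm_num) _) (pow_nonneg (Nat.cast_nonneg _) _))
  have hcT : (#(tset K D W) : ℝ) = (K.choose D : ℝ) * (#W : ℝ) ^ D := by
    have h1 := ft_tset W hW0 D (0 : AddChar (Fin K → A) ℂ)
    have h2 : ft (tset K D W) (0 : AddChar (Fin K → A) ℂ) = (#(tset K D W) : ℂ) := by simp [ft]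
    have h3 : ∀ i, ft W (blk (0 : AddChar (Fin K → A) ℂ) i) = (#W : ℂ) := by
      intro i
      simp [ft, blk]
    rw [h2] at h1
    rw [Finset.sum_congr rfl fun S hS => by
      rw [Finset.prod_congr rfl fun i _ => h3 i, Finset.prod_const,
        (Finset.mem_powersetCard.mp hS).2]] at h1
    rw [Finset.sum_const, Finset.card_powersetCard, Finset.card_univ, Fintype.card_fin,
      nsmul_eq_mul] at h1
    exact_mod_cast h1
  rw [hcT] at hmain
  have hcG : (Fintype.card (Fin K → A) : ℝ) = (Fintype.card A : ℝ) ^ K := by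
    rw [Fintype.card_fun, Fintype.card_fin]
    push_cast
    rfl
  rw [hcG] at hmain
  exact hmain

end Pool.Agent.Lib.MP_c5838f_co.SP.H20
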